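import Mathlib
import Pool.Agent.VM5.Stmts

set_option autoImplicit false

namespace Pool.Agent.VM5.H52

open Pool.Agent.VM5

theorem lam_ge_one {N H g : ℕ} (h1 : 1 ≤ g) (h2 : g ≤ H) (h3 : H ≤ N) :
    (1 : ℝ) ≤ (g : ℝ) * (N : ℝ) / (H : ℝ) := by
  have hH : (0 : ℝ) < H := by
    have : 0 < H := by omega
    exact_mod_cast this
  have hg : (1 : ℝ) ≤ g := by exact_mod_cast h1
  have hN : (H : ℝ) ≤ N := by exact_mod_cast h3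
  rw [le_div_iff₀ hH]
  nlinarith

theorem ecl (ea2 : Ea2Stmt) (ebc : EbcStmt) : EclStmt := by
  intro ε hε
  obtain ⟨C1, hC1, h1⟩ := ea2 ε hε
  obtain ⟨C2, hC2, h2⟩ := ebc ε hε
  refine ⟨C1 + C2, by positivity, fun N D K u H g t b S hP hg1 hgH hHN => ?_⟩
  have k1 := h1 N D K u H g t b S hP hg1 hgH hHN
  have k2 := h2 N D K u t b S hP
  have hsub : Cls N H g u S ⊆ P2 N S := Finset.filter_subset _ _
  have hfin1 : Finite {v : (ℕ × ℕ × ℤ) × (ℕ × ℕ × ℤ) // v.1 ∈ Cls N H g u S ∧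
        v.2 ∈ Cls N H g u S ∧ Close2 K t v ∧ v.1.2.1 ≠ v.2.2.1} := by
    apply Set.Finite.to_subtype
    apply ((Cls N H g u S ×ˢ Cls N H g u S).finite_toSet).subset
    intro v hv
    exact Finset.mem_coe.mpr (Finset.mem_product.mpr ⟨hv.1, hv.2.1⟩)
  have hfin2 : Finite {v : (ℕ × ℕ × ℤ) × (ℕ × ℕ × ℤ) // v.1 ∈ P2 N S ∧ v.2 ∈ P2 N S ∧
        Close2 K t v ∧ v.1.2.1 = v.2.2.1} := by
    apply Set.Finite.to_subtype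
    apply ((P2 N S ×ˢ P2 N S).finite_toSet).subset
    intro v hv
    exact Finset.mem_coe.mpr (Finset.mem_product.mpr ⟨hv.1, hv.2.1⟩)
  have hcard : Nat.card {v : (ℕ × ℕ × ℤ) × (ℕ × ℕ × ℤ) // v.1 ∈ Cls N H g u S ∧
        v.2 ∈ Cls N H g u S ∧ Close2 K t v} ≤
      Nat.card {v : (ℕ × ℕ × ℤ) × (ℕ × ℕ × ℤ) // v.1 ∈ Cls N H g u S ∧
        v.2 ∈ Cls N H g u S ∧ Close2 K t v ∧ v.1.2.1 ≠ v.2.2.1} +
      Nat.card {v : (ℕ × ℕ × ℤ) × (ℕ × ℕ × ℤ) // v.1 ∈ P2 N S ∧ v.2 ∈ P2 N S ∧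
        Close2 K t v ∧ v.1.2.1 = v.2.2.1} := by
    rw [← Nat.card_sum]
    classical
    apply Nat.card_le_card_of_injective (fun v =>
      if h : v.1.1.2.1 = v.1.2.2.1 then
        Sum.inr ⟨v.1, hsub v.2.1, hsub v.2.2.1, v.2.2.2, h⟩
      else Sum.inl ⟨v.1, v.2.1, v.2.2.1, v.2.2.2, h⟩)
    intro v v' hvv
    simp only at hvv
    split_ifs at hvv with a1 a2 a2
    · simp only [Sum.inr.injEq, Subtype.mk.injEq] at hvv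
      exact Subtype.ext hvv
    · simp only [Sum.inl.injEq, Subtype.mk.injEq] at hvv
      exact Subtype.ext hvv
  have hlam := lam_ge_one hg1 hgH hHN
  have hlam3 : (1 : ℝ) ≤ ((g : ℝ) * (N : ℝ) / (H : ℝ)) ^ 3 := one_le_pow₀ hlam
  have hq : 0 ≤ (N : ℝ) ^ (2 + ε) * (D : ℝ) * (1 + (N : ℝ) / (u : ℝ)) ^ 2 := by positivity
  have hcard' : (Nat.card {v : (ℕ × ℕ × ℤ) × (ℕ × ℕ × ℤ) // v.1 ∈ Cls N H g u S ∧
        v.2 ∈ Cls N H g u S ∧ Close2 K t v} : ℝ) ≤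
      (Nat.card {v : (ℕ × ℕ × ℤ) × (ℕ × ℕ × ℤ) // v.1 ∈ Cls N H g u S ∧
        v.2 ∈ Cls N H g u S ∧ Close2 K t v ∧ v.1.2.1 ≠ v.2.2.1} : ℝ) +
      (Nat.card {v : (ℕ × ℕ × ℤ) × (ℕ × ℕ × ℤ) // v.1 ∈ P2 N S ∧ v.2 ∈ P2 N S ∧
        Close2 K t v ∧ v.1.2.1 = v.2.2.1} : ℝ) := by exact_mod_cast hcard
  set L : ℝ := ((g : ℝ) * (N : ℝ) / (H : ℝ)) ^ 3 with hL
  set X : ℝ := (N : ℝ) ^ (2 + ε) * (D : ℝ) * (1 + (N : ℝ) / (u : ℝ)) ^ 2 with hX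
  have e1 : C1 * (N : ℝ) ^ (2 + ε) * (D : ℝ) * L * (1 + (N : ℝ) / (u : ℝ)) ^ 2 = C1 * (X * L) := by
    rw [hX]; ring
  have e2 : C2 * (N : ℝ) ^ (2 + ε) * (D : ℝ) * (1 + (N : ℝ) / (u : ℝ)) ^ 2 = C2 * X := by
    rw [hX]; ring
  have e3 : (C1 + C2) * (N : ℝ) ^ (2 + ε) * (D : ℝ) * L * (1 + (N : ℝ) / (u : ℝ)) ^ 2
      = C1 * (X * L) + C2 * (X * L) := by
    rw [hX]; ring
  have e4 : X ≤ X * L := le_mul_of_one_le_right hq hlam3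
  have e5 : C2 * X ≤ C2 * (X * L) := by gcongr
  rw [e1] at k1
  rw [e2] at k2
  rw [e3]
  linarith

end Pool.Agent.VM5.H52
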