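import Mathlib
import Pool.Agent.Helper52_VM5.ECL

set_option autoImplicit false

namespace Pool.Agent.VM5.H52

open Pool.Agent.VM5
open Pool.Agent.Helper69_Weyl (ee)
open Pool.Agent.VM (Nr)

theorem card_cls (N H g u : ℕ) (S : Finset ℕ) (hg : 1 ≤ g) (hN : 1 ≤ N) :
    ((Cls N H g u S).card : ℝ) ≤ 5 * (N : ℝ) * (S.card : ℝ) * ((H : ℝ) / (g : ℝ)) := by
  have hsub : Cls N H g u S ⊆
      ((Finset.Icc 1 (H / g)).image (fun k => g * k)) ×ˢ S ×ˢ Finset.Icc (-(N : ℤ)) (N : ℤ) := by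
    intro p hp
    simp only [Cls, P2, Finset.mem_filter, Finset.mem_product] at hp
    obtain ⟨⟨h1, h2, h3⟩, h4, h5, h6⟩ := hp
    simp only [Finset.mem_product]
    refine ⟨?_, h2, h3⟩
    rw [Finset.mem_image]
    have hdvd : g ∣ p.1 := h6 ▸ Nat.gcd_dvd_left p.1 u
    obtain ⟨k, hk⟩ := hdvd
    refine ⟨k, ?_, hk.symm⟩
    rw [Finset.mem_Icc] at h1 ⊢
    constructor
    · by_contra hcon
      have : k = 0 := by omega
      subst this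
      omega
    · rw [Nat.le_div_iff_mul_le (by omega)]
      calc k * g = g * k := mul_comm _ _
        _ = p.1 := hk.symm
        _ ≤ H := h5
  have hcard := Finset.card_le_card hsub
  rw [Finset.card_product, Finset.card_product] at hcard
  have h1 : ((Finset.Icc 1 (H / g)).image (fun k => g * k)).card ≤ H / g := by
    refine Finset.card_image_le.trans ?_
    simp
  have h2 : (Finset.Icc (-(N : ℤ)) (N : ℤ)).card = 2 * N + 1 := by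
    rw [Int.card_Icc]; omega
  rw [h2] at hcard
  have h3 : (Cls N H g u S).card ≤ (H / g) * (S.card * (2 * N + 1)) :=
    hcard.trans (Nat.mul_le_mul_right _ h1)
  have h4 : ((H / g : ℕ) : ℝ) ≤ (H : ℝ) / (g : ℝ) := Nat.cast_div_le
  have hNr : (1 : ℝ) ≤ N := by exact_mod_cast hN
  calc ((Cls N H g u S).card : ℝ) ≤ (((H / g) * (S.card * (2 * N + 1)) : ℕ) : ℝ) := by
        exact_mod_cast h3
    _ = ((H / g : ℕ) : ℝ) * ((S.card : ℝ) * (2 * N + 1)) := by push_cast; ring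
    _ ≤ ((H : ℝ) / (g : ℝ)) * ((S.card : ℝ) * (5 * N)) := by
        gcongr
        linarith
    _ = _ := by ring

theorem bcl (lsg : LsgStmt 4) (ecl : EclStmt) : BclStmt := by
  intro ε hε
  obtain ⟨C1, hC1, h1⟩ := lsg (ε / 2) (by positivity)
  obtain ⟨C2, hC2, h2⟩ := ecl (ε / 2) (by positivity)
  refine ⟨C1 * C2 * 5 ^ 18, by positivity, fun N D K u H g t b S lo hi hlo hhi hP hg1 hgH hHN => ?_⟩
  have k2 := h2 N D K u H g t b S hP hg1 hgH hHN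
  have hD : 10 < D := hP.2.2.1
  have hN1 : 1 ≤ N := by omega
  have hK1 : 1 ≤ K := by
    have h3 : D ≤ K ^ 2 := hP.2.2.2.2.2.2.1
    by_contra hcon
    have : K = 0 := by omega
    subst this
    simp at h3
    omega
  have hKN : K ≤ N := by
    have h3 : 4 * D * K ≤ N := hP.1
    nlinarith
  have k1 := h1 (ℕ × ℕ × ℤ) (fun p => (Nat.pair p.1 p.2.1, p.2.2)) (by
    rintro ⟨a, b, c⟩ ⟨a', b', c'⟩ h
    simp only [Prod.mk.injEq] at h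
    obtain ⟨h3, h4⟩ := h
    have h5 := Nat.pair_eq_pair.mp h3
    rw [h5.1, h5.2, h4]) K hK1 (Cls N H g u S) (fun p j => t * (co2 j p : ℝ)) lo hi
    (fun p _ => hlo p) (fun p _ => hhi p)
  have ht : VM.tri 4 = 10 := rfl
  rw [ht] at k1
  have e20 : (2 * ((10 : ℕ) : ℝ) + ε / 2) = 20 + ε / 2 := by norm_num
  rw [e20] at k1
  have hE : Nat.card {v : (ℕ × ℕ × ℤ) × (ℕ × ℕ × ℤ) // v.1 ∈ Cls N H g u S ∧
      v.2 ∈ Cls N H g u S ∧ ∀ j : Fin 4, Nr (t * (co2 j v.1 : ℝ) - t * (co2 j v.2 : ℝ))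
        (1 / (K : ℝ) ^ ((j : ℕ) + 1))} =
      Nat.card {v : (ℕ × ℕ × ℤ) × (ℕ × ℕ × ℤ) // v.1 ∈ Cls N H g u S ∧
        v.2 ∈ Cls N H g u S ∧ Close2 K t v} := rfl
  rw [hE] at k1
  set E : ℝ := (Nat.card {v : (ℕ × ℕ × ℤ) × (ℕ × ℕ × ℤ) // v.1 ∈ Cls N H g u S ∧
        v.2 ∈ Cls N H g u S ∧ Close2 K t v} : ℝ) with hEdef
  have hE0 : 0 ≤ E := by positivity
  have hlam := lam_ge_one hg1 hgH hHN
  set lam : ℝ := (g : ℝ) * (N : ℝ) / (H : ℝ) with hlamdef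
  have hNr : (1 : ℝ) ≤ N := by exact_mod_cast hN1
  have hH0 : (0 : ℝ) < H := by
    have : 0 < H := by omega
    exact_mod_cast this
  have hg0 : (0 : ℝ) < g := by exact_mod_cast hg1
  have hcard := card_cls N H g u S hg1 hN1
  have hcard2 : ((Cls N H g u S).card : ℝ) ≤ 5 * (N : ℝ) ^ 2 * (S.card : ℝ) / lam := by
    refine hcard.trans (le_of_eq ?_)
    rw [hlamdef]
    field_simp
  have hK0 : (1 : ℝ) ≤ K := by exact_mod_cast hK1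
  have hKNr : (K : ℝ) ≤ N := by exact_mod_cast hKN
  have hKp : (K : ℝ) ^ (20 + ε / 2) ≤ (K : ℝ) ^ 20 * (N : ℝ) ^ (ε / 2) := by
    rw [Real.rpow_add (by linarith)]
    have e1 : (K : ℝ) ^ (20 : ℝ) = (K : ℝ) ^ 20 := by
      rw [← Real.rpow_natCast]; norm_num
    rw [e1]
    gcongr
  have hlam0 : 0 < lam := by linarith
  have hNe : (N : ℝ) ^ (ε / 2) * ((N : ℝ) ^ 36 * (N : ℝ) ^ (2 + ε / 2)) = (N : ℝ) ^ (38 + ε) := by
    rw [← Real.rpow_natCast, ← Real.rpow_add (by linarith), ← Real.rpow_add (by linarith)]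
    congr 1
    push_cast
    ring
  have hlamp : lam ^ 3 / lam ^ 18 ≤ 1 := by
    rw [div_le_one (by positivity)]
    exact pow_le_pow_right₀ hlam (by norm_num)
  have hX0 : 0 ≤ (C1 * C2 * 5 ^ 18) * (K : ℝ) ^ 20 * (N : ℝ) ^ (38 + ε) * (S.card : ℝ) ^ 18 *
      (D : ℝ) * (1 + (N : ℝ) / (u : ℝ)) ^ 2 := by positivity
  calc (∑ p ∈ Cls N H g u S, ‖∑ m ∈ Finset.Icc (lo p) (hi p),
        ee (∑ j : Fin 4, t * (co2 j p : ℝ) * (m : ℝ) ^ ((j : ℕ) + 1))‖) ^ 20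
      ≤ C1 * (K : ℝ) ^ (20 + ε / 2) * ((Cls N H g u S).card : ℝ) ^ 18 * E := k1
    _ ≤ C1 * ((K : ℝ) ^ 20 * (N : ℝ) ^ (ε / 2)) * (5 * (N : ℝ) ^ 2 * (S.card : ℝ) / lam) ^ 18 *
        (C2 * (N : ℝ) ^ (2 + ε / 2) * (D : ℝ) * lam ^ 3 * (1 + (N : ℝ) / (u : ℝ)) ^ 2) := by
        gcongr
    _ = (C1 * C2 * 5 ^ 18) * (K : ℝ) ^ 20 *
        ((N : ℝ) ^ (ε / 2) * ((N : ℝ) ^ 36 * (N : ℝ) ^ (2 + ε / 2))) * (S.card : ℝ) ^ 18 *
        (D : ℝ) * (1 + (N : ℝ) / (u : ℝ)) ^ 2 * (lam ^ 3 / lam ^ 18) := by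
        rw [div_pow]
        ring
    _ = (C1 * C2 * 5 ^ 18) * (K : ℝ) ^ 20 * (N : ℝ) ^ (38 + ε) * (S.card : ℝ) ^ 18 *
        (D : ℝ) * (1 + (N : ℝ) / (u : ℝ)) ^ 2 * (lam ^ 3 / lam ^ 18) := by rw [hNe]
    _ ≤ (C1 * C2 * 5 ^ 18) * (K : ℝ) ^ 20 * (N : ℝ) ^ (38 + ε) * (S.card : ℝ) ^ 18 *
        (D : ℝ) * (1 + (N : ℝ) / (u : ℝ)) ^ 2 * 1 := by gcongr
    _ = _ := by ring

end Pool.Agent.VM5.H52
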