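import Mathlib
import Pool.Agent.VM5.Stmts

set_option autoImplicit false

namespace Pool.Agent.VM5.H52

open Pool.Agent.VM5

theorem gd3 : Gd3Stmt := by
  intro N D S _ hS p hp p' hp' heq
  simp only [P3g, P3, Finset.mem_filter, Finset.mem_product] at hp hp'
  obtain ⟨⟨_, _, hdS, _⟩, hg⟩ := hp
  obtain ⟨⟨_, _, hdS', _⟩, _⟩ := hp'
  obtain ⟨hd1, hd2, hd3⟩ := hS _ hdS
  obtain ⟨hd1', hd2', hd3'⟩ := hS _ hdS'
  have hdd : p.2.2.1 = p'.2.2.1 := by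
    by_contra hne
    apply hg
    have hcop : Nat.Coprime p.2.2.1 p'.2.2.1 := (Nat.coprime_primes hd3 hd3').mpr hne
    have h1 : (p.2.2.1 : ℤ) ∣ (p'.2.2.1 : ℤ) * Z3 p := ⟨Z3 p', heq⟩
    exact (Nat.isCoprime_iff_coprime.mpr hcop).dvd_of_dvd_mul_left h1
  refine ⟨hdd, ?_⟩
  rw [hdd] at heq
  have h0 : (p'.2.2.1 : ℤ) ≠ 0 := by
    have := hd3'.pos
    exact_mod_cast this.ne'
  exact mul_left_cancel₀ h0 heq

end Pool.Agent.VM5.H52
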