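import Mathlib
import Pool.Agent.VM5.Stmts

set_option autoImplicit false

namespace Pool.Agent.VM5.H52

open Pool.Agent.VM5 Filter

theorem ev_rpow (a b C : ℝ) (hab : a < b) : ∀ᶠ N : ℕ in atTop, C * (N : ℝ) ^ a ≤ (N : ℝ) ^ b := by
  have h := (tendsto_rpow_atTop (sub_pos.mpr hab)).comp (tendsto_natCast_atTop_atTop (R := ℝ))
  filter_upwards [h.eventually_ge_atTop C, eventually_ge_atTop 1] with N h1 h2
  simp only [Function.comp] at h1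
  have hN : (0 : ℝ) < N := by
    have : 0 < N := by omega
    exact_mod_cast this
  calc C * (N : ℝ) ^ a ≤ (N : ℝ) ^ (b - a) * (N : ℝ) ^ a := by gcongr
    _ = (N : ℝ) ^ b := by rw [← Real.rpow_add hN]; congr 1; ring

theorem ev_sub (a b c : ℝ) (hab : a < b) (hb : 0 < b) (hc : 0 < c) :
    ∀ᶠ N : ℕ in atTop, (N : ℝ) ^ a ≤ c * (N : ℝ) ^ b - 1 := by
  filter_upwards [ev_rpow a b (2 / c) hab, ev_rpow 0 b (2 / c) hb] with N h1 h2
  rw [Real.rpow_zero, mul_one] at h2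
  have e1 : c * ((2 / c) * (N : ℝ) ^ a) = 2 * (N : ℝ) ^ a := by field_simp
  have e2 : c * (2 / c) = 2 := by field_simp
  have h3 : c * ((2 / c) * (N : ℝ) ^ a) ≤ c * (N : ℝ) ^ b := by gcongr
  have h4 : c * (2 / c) ≤ c * (N : ℝ) ^ b := by gcongr
  rw [e1] at h3
  rw [e2] at h4
  linarith

/-- Common construction: `D = ⌊N ^ b⌋`, `K = N / (4 D)`. -/
theorem params (a b c : ℝ) (hab : a < b) (hb0 : 0 < b) (hb1 : b < 1) (hc : c < 1 - b) :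
    ∀ᶠ N : ℕ in atTop, ∃ D K : ℕ, 4 * D * K ≤ N ∧ (4 ≤ K → N ≤ 5 * D * K) ∧
      (N : ℝ) ^ a ≤ (D : ℝ) ∧ (D : ℝ) ≤ (N : ℝ) ^ b ∧ (N : ℝ) ^ c ≤ (K : ℝ) := by
  filter_upwards [ev_sub a b 1 hab hb0 one_pos, ev_rpow 0 b 1 hb0,
    ev_sub c (1 - b) (1 / 4) hc (by linarith) (by norm_num), eventually_ge_atTop 1]
    with N h1 h2 h3 h4
  have hN : (0 : ℝ) < N := by
    have : 0 < N := by omega
    exact_mod_cast this
  have hD0 : 0 < ⌊(N : ℝ) ^ b⌋₊ := by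
    apply Nat.floor_pos.mpr
    simpa using h2
  set D := ⌊(N : ℝ) ^ b⌋₊ with hD
  have hDle : (D : ℝ) ≤ (N : ℝ) ^ b := Nat.floor_le (by positivity)
  have hDlt : (N : ℝ) ^ b < (D : ℝ) + 1 := Nat.lt_floor_add_one _
  refine ⟨D, N / (4 * D), Nat.mul_div_le N (4 * D), ?_, by linarith, hDle, ?_⟩
  · intro hK
    have e1 := Nat.div_add_mod N (4 * D)
    have e2 := Nat.mod_lt N (show 0 < 4 * D by omega)
    nlinarith
  · have h5 : (N : ℝ) / ((4 * D : ℕ) : ℝ) < ((N / (4 * D) : ℕ) : ℝ) + 1 := by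
      have h4D : 0 < 4 * D := by omega
      have h7 := Nat.lt_mul_div_succ N h4D
      have h8 : (N : ℝ) < ((4 * D : ℕ) : ℝ) * (((N / (4 * D) : ℕ) : ℝ) + 1) := by exact_mod_cast h7
      have h9 : (0 : ℝ) < ((4 * D : ℕ) : ℝ) := by exact_mod_cast h4D
      rw [div_lt_iff₀ h9]
      linarith
    have h6 : (1 / 4) * (N : ℝ) ^ (1 - b) ≤ (N : ℝ) / ((4 * D : ℕ) : ℝ) := by
      rw [Real.rpow_sub hN, Real.rpow_one]
      push_cast
      have hD0' : (0 : ℝ) < D := by exact_mod_cast hD0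
      calc (1 / 4) * ((N : ℝ) / (N : ℝ) ^ b) = (N : ℝ) / (4 * (N : ℝ) ^ b) := by field_simp
        _ ≤ (N : ℝ) / (4 * D) := by gcongr
    linarith

theorem pow_rp (x a : ℝ) (hx : 0 ≤ x) (k : ℕ) : (x ^ a) ^ k = x ^ (a * k) :=
  (Real.rpow_mul_natCast hx a k).symm

theorem nu3 : Nu3Stmt := by
  have key : ∀ᶠ N : ℕ in atTop, ∃ D K : ℕ, 4 * D * K ≤ N ∧ N ≤ 5 * D * K ∧ 10 < D ∧
      D ^ 8 ≤ N ∧ 5000 * D ≤ K ∧ (N : ℝ) ^ ((83 : ℝ) / 1000) ≤ (D : ℝ) ∧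
      (N : ℝ) ^ ((119 : ℝ) / 1000) ≤ (D : ℝ) := by
    filter_upwards [params (119 / 1000) (12 / 100) (87 / 100) (by norm_num) (by norm_num)
      (by norm_num) (by norm_num), ev_rpow 0 (119 / 1000) 11 (by norm_num),
      ev_rpow (12 / 100) (87 / 100) 5000 (by norm_num), ev_rpow (96 / 100) 1 1 (by norm_num),
      ev_rpow 0 (87 / 100) 4 (by norm_num),
      ev_rpow (83 / 1000) (119 / 1000) 1 (by norm_num)] with N hN h1 h2 h3 h4 h5
    obtain ⟨D, K, g1, g2, g3, g4, g5⟩ := hN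
    rw [Real.rpow_zero, mul_one] at h1 h4
    rw [one_mul] at h3 h5
    rw [Real.rpow_one] at h3
    have hN0 : (0 : ℝ) ≤ N := by positivity
    have k1 : 10 < D := by
      have : (11 : ℝ) ≤ D := h1.trans g3
      have : 11 ≤ D := by exact_mod_cast this
      omega
    have k2 : 5000 * D ≤ K := by
      have : (5000 : ℝ) * D ≤ K := by
        calc (5000 : ℝ) * D ≤ 5000 * (N : ℝ) ^ ((12 : ℝ) / 100) := by gcongr
          _ ≤ (N : ℝ) ^ ((87 : ℝ) / 100) := h2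
          _ ≤ K := g5
      exact_mod_cast this
    have k3 : D ^ 8 ≤ N := by
      have : (D : ℝ) ^ 8 ≤ N := by
        calc (D : ℝ) ^ 8 ≤ ((N : ℝ) ^ ((12 : ℝ) / 100)) ^ 8 := by gcongr
          _ = (N : ℝ) ^ ((96 : ℝ) / 100) := by rw [pow_rp _ _ hN0]; norm_num
          _ ≤ N := h3
      exact_mod_cast this
    exact ⟨D, K, g1, g2 (by omega), k1, k3, k2, h5.trans g3, g3⟩
  exact eventually_atTop.mp key

theorem nu2 : Nu2Stmt := by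
  have key : ∀ᶠ N : ℕ in atTop, ∃ D K : ℕ, 4 * D * K ≤ N ∧ N ≤ 5 * D * K ∧ 10 < D ∧
      N ≤ D ^ 2 ∧ N ≤ K ^ 3 ∧ D * N ^ 2 ≤ K ^ 6 ∧ D ≤ K ^ 2 ∧
      (D : ℝ) ≤ (N : ℝ) ^ ((99 : ℝ) / 100) / 4 ∧
      (N : ℝ) ^ ((5205 : ℝ) / 10000) ≤ (D : ℝ) ∧
      2000000 * (N : ℝ) ^ ((1917 : ℝ) / 1000) ≤ (K : ℝ) ^ 4 ∧
      2 * (N : ℝ) ^ ((1917 : ℝ) / 1000) ≤ (D : ℝ) * (K : ℝ) ^ 3 := by
    filter_upwards [params (5205 / 10000) (5206 / 10000) (4793 / 10000) (by norm_num) (by norm_num)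
      (by norm_num) (by norm_num), ev_rpow 0 (5205 / 10000) 11 (by norm_num),
      ev_rpow 0 (4793 / 10000) 4 (by norm_num),
      ev_rpow 1 (10410 / 10000) 1 (by norm_num),
      ev_rpow 1 (14379 / 10000) 1 (by norm_num),
      ev_rpow (25206 / 10000) (28758 / 10000) 1 (by norm_num),
      ev_rpow (5206 / 10000) (9586 / 10000) 1 (by norm_num),
      ev_rpow (5206 / 10000) (99 / 100) 4 (by norm_num),
      ev_rpow (1917 / 1000) (19172 / 10000) 2000000 (by norm_num),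
      ev_rpow (1917 / 1000) (19584 / 10000) 2 (by norm_num), eventually_ge_atTop 1]
      with N hN h1 h2 h3 h4 h5 h6 h7 h8 h9 hN1
    obtain ⟨D, K, g1, g2, g3, g4, g5⟩ := hN
    rw [Real.rpow_zero, mul_one] at h1 h2
    rw [one_mul] at h3 h4 h5 h6
    rw [Real.rpow_one] at h3 h4
    have hN0 : (0 : ℝ) ≤ N := by positivity
    have hNpos : (0 : ℝ) < N := by
      have : 0 < N := by omega
      exact_mod_cast this
    have k1 : 10 < D := by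
      have : (11 : ℝ) ≤ D := h1.trans g3
      have : 11 ≤ D := by exact_mod_cast this
      omega
    have k2 : 4 ≤ K := by
      have : (4 : ℝ) ≤ K := h2.trans g5
      exact_mod_cast this
    have k3 : N ≤ D ^ 2 := by
      have : (N : ℝ) ≤ (D : ℝ) ^ 2 := by
        calc (N : ℝ) ≤ (N : ℝ) ^ ((10410 : ℝ) / 10000) := h3
          _ = ((N : ℝ) ^ ((5205 : ℝ) / 10000)) ^ 2 := by rw [pow_rp _ _ hN0]; norm_num
          _ ≤ (D : ℝ) ^ 2 := by gcongr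
      exact_mod_cast this
    have k4' : (N : ℝ) ^ ((14379 : ℝ) / 10000) ≤ (K : ℝ) ^ 3 := by
      calc (N : ℝ) ^ ((14379 : ℝ) / 10000) = ((N : ℝ) ^ ((4793 : ℝ) / 10000)) ^ 3 := by
            rw [pow_rp _ _ hN0]; norm_num
        _ ≤ (K : ℝ) ^ 3 := by gcongr
    have k4 : N ≤ K ^ 3 := by
      have : (N : ℝ) ≤ (K : ℝ) ^ 3 := h4.trans k4'
      exact_mod_cast this
    have k5 : D * N ^ 2 ≤ K ^ 6 := by
      have : (D : ℝ) * (N : ℝ) ^ 2 ≤ (K : ℝ) ^ 6 := by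
        calc (D : ℝ) * (N : ℝ) ^ 2 ≤ (N : ℝ) ^ ((5206 : ℝ) / 10000) * (N : ℝ) ^ 2 := by gcongr
          _ = (N : ℝ) ^ ((25206 : ℝ) / 10000) := by
            rw [← Real.rpow_natCast, ← Real.rpow_add hNpos]; norm_num
          _ ≤ (N : ℝ) ^ ((28758 : ℝ) / 10000) := h5
          _ = ((N : ℝ) ^ ((4793 : ℝ) / 10000)) ^ 6 := by rw [pow_rp _ _ hN0]; norm_num
          _ ≤ (K : ℝ) ^ 6 := by gcongr
      exact_mod_cast this
    have k6 : D ≤ K ^ 2 := by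
      have : (D : ℝ) ≤ (K : ℝ) ^ 2 := by
        calc (D : ℝ) ≤ (N : ℝ) ^ ((5206 : ℝ) / 10000) := g4
          _ ≤ (N : ℝ) ^ ((9586 : ℝ) / 10000) := h6
          _ = ((N : ℝ) ^ ((4793 : ℝ) / 10000)) ^ 2 := by rw [pow_rp _ _ hN0]; norm_num
          _ ≤ (K : ℝ) ^ 2 := by gcongr
      exact_mod_cast this
    refine ⟨D, K, g1, g2 k2, k1, k3, k4, k5, k6, ?_, g3, ?_, ?_⟩
    · rw [le_div_iff₀ (by norm_num)]
      linarith
    · calc 2000000 * (N : ℝ) ^ ((1917 : ℝ) / 1000) ≤ (N : ℝ) ^ ((19172 : ℝ) / 10000) := h8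
        _ = ((N : ℝ) ^ ((4793 : ℝ) / 10000)) ^ 4 := by rw [pow_rp _ _ hN0]; norm_num
        _ ≤ (K : ℝ) ^ 4 := by gcongr
    · calc 2 * (N : ℝ) ^ ((1917 : ℝ) / 1000) ≤ (N : ℝ) ^ ((19584 : ℝ) / 10000) := h9
        _ = (N : ℝ) ^ ((5205 : ℝ) / 10000) * (N : ℝ) ^ ((14379 : ℝ) / 10000) := by
            rw [← Real.rpow_add hNpos]; norm_num
        _ ≤ (D : ℝ) * (K : ℝ) ^ 3 := by gcongr
  exact eventually_atTop.mp key

end Pool.Agent.VM5.H52
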