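import Mathlib
import Pool.Agent.VM5.Stmts

set_option autoImplicit false

namespace Pool.Agent.VM5.H52

open Pool.Agent.VM5

/-- A subtype of a finite product, split over the values of the first coordinate. -/
theorem card_fst_le {α β : Type} (P : α × β → Prop) (A : Finset α) (hA : ∀ x, P x → x.1 ∈ A)
    (M : ℕ) (hfin : ∀ a, Finite {b : β // P (a, b)}) (hM : ∀ a ∈ A, Nat.card {b : β // P (a, b)} ≤ M) :
    Nat.card {x : α × β // P x} ≤ A.card * M := by
  classical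
  let f : {x : α × β // P x} → (Σ a : A, {b : β // P (a.1, b)}) :=
    fun x => ⟨⟨x.1.1, hA _ x.2⟩, ⟨x.1.2, x.2⟩⟩
  have hf : Function.Injective f := by
    rintro ⟨⟨a, b⟩, hx⟩ ⟨⟨a', b'⟩, hx'⟩ h
    simp only [f, Sigma.mk.injEq, Subtype.mk.injEq] at h
    obtain ⟨h1, h2⟩ := h
    subst h1
    have h3 := eq_of_heq h2
    simp only [Subtype.mk.injEq] at h3
    subst h3
    rfl
  have : ∀ a : A, Finite {b : β // P (a.1, b)} := fun a => hfin a.1
  calc Nat.card {x : α × β // P x} ≤ Nat.card (Σ a : A, {b : β // P (a.1, b)}) :=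
        Nat.card_le_card_of_injective f hf
    _ = ∑ a : A, Nat.card {b : β // P (a.1, b)} := Nat.card_sigma
    _ ≤ ∑ _a : A, M := Finset.sum_le_sum fun a _ => hM a.1 a.2
    _ = A.card * M := by simp

theorem qd3 (dvb : DvbStmt) : Qd3Stmt := by
  intro ε hε
  obtain ⟨C, hC, hdvb⟩ := dvb (ε / 2) (by positivity)
  refine ⟨C, hC, fun N n hN => ?_⟩
  have hNr : (1 : ℝ) ≤ N := by exact_mod_cast hN
  -- the count for a given first pair
  set P : (ℕ × ℕ) × (ℕ × ℕ) → Prop := fun x => 1 ≤ x.1.1 ∧ x.1.1 ≤ N ∧ 1 ≤ x.1.2 ∧ x.1.2 ≤ N ∧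
      1 ≤ x.2.1 ∧ x.2.1 ≤ N ∧ 1 ≤ x.2.2 ∧ x.2.2 ≤ N ∧
      (x.1.1 : ℤ) * (x.1.2 : ℤ) - (x.2.1 : ℤ) * (x.2.2 : ℤ) = n with hP
  have hfin : ∀ a, Finite {b : ℕ × ℕ // P (a, b)} := by
    intro a
    apply Set.Finite.to_subtype
    apply (((Finset.Icc 1 N) ×ˢ (Finset.Icc 1 N)).finite_toSet).subset
    intro b hb0
    have hb : P (a, b) := hb0
    simp only [hP] at hb
    simp only [Finset.coe_product, Finset.coe_Icc, Set.mem_prod, Set.mem_Icc]
    tauto
  have hone : ∀ a : ℕ × ℕ, (Nat.card {b : ℕ × ℕ // P (a, b)} : ℝ) ≤ C * (N : ℝ) ^ ε := by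
    intro a
    have hpos : 0 ≤ C * (N : ℝ) ^ ε := by positivity
    by_cases hne : ∃ b, P (a, b)
    · obtain ⟨b0, hb0⟩ := hne
      simp only [hP] at hb0
      set m : ℤ := (a.1 : ℤ) * (a.2 : ℤ) - n with hm
      have hm2 : m = (b0.1 : ℤ) * (b0.2 : ℤ) := by rw [hm]; linarith [hb0.2.2.2.2.2.2.2.2]
      have hmpos : 0 < m := by
        rw [hm2]
        have h1 : 0 < b0.1 := by omega
        have h2 : 0 < b0.2 := by omega
        positivity
      have hmle : m ≤ (N : ℤ) * (N : ℤ) := by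
        rw [hm2]
        have h1 : (b0.1 : ℤ) ≤ N := by exact_mod_cast hb0.2.2.2.2.2.1
        have h2 : (b0.2 : ℤ) ≤ N := by exact_mod_cast hb0.2.2.2.2.2.2.2.1
        have h3 : (0 : ℤ) ≤ b0.1 := by positivity
        have h4 : (0 : ℤ) ≤ b0.2 := by positivity
        exact mul_le_mul h1 h2 h4 (by positivity)
      have h5 := hdvb m hmpos.ne'
      -- injection into the factorizations
      have hfinF : Finite {x : ℤ × ℤ × ℤ × ℤ // x.1 * x.2.1 * x.2.2.1 * x.2.2.2 = m} := by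
        apply Set.Finite.to_subtype
        have hD : (Set.Icc (-m) m ×ˢ Set.Icc (-m) m ×ˢ Set.Icc (-m) m ×ˢ Set.Icc (-m) m).Finite :=
          (Set.finite_Icc _ _).prod ((Set.finite_Icc _ _).prod ((Set.finite_Icc _ _).prod
            (Set.finite_Icc _ _)))
        apply hD.subset
        intro x hx0
        have hx : x.1 * x.2.1 * x.2.2.1 * x.2.2.2 = m := hx0
        have hd : ∀ y : ℤ, y ∣ m → y ∈ Set.Icc (-m) m := by
          intro y hy
          have h6 := Int.le_of_dvd hmpos ((abs_dvd y m).mpr hy)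
          rw [abs_le] at h6
          exact h6
        refine ⟨hd _ ?_, hd _ ?_, hd _ ?_, hd _ ?_⟩
        · exact ⟨x.2.1 * x.2.2.1 * x.2.2.2, by rw [← hx]; ring⟩
        · exact ⟨x.1 * x.2.2.1 * x.2.2.2, by rw [← hx]; ring⟩
        · exact ⟨x.1 * x.2.1 * x.2.2.2, by rw [← hx]; ring⟩
        · exact ⟨x.1 * x.2.1 * x.2.2.1, by rw [← hx]; ring⟩
      have h6 : Nat.card {b : ℕ × ℕ // P (a, b)} ≤
          Nat.card {x : ℤ × ℤ × ℤ × ℤ // x.1 * x.2.1 * x.2.2.1 * x.2.2.2 = m} := by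
        apply Nat.card_le_card_of_injective
          (fun b => ⟨((b.1.1 : ℤ), (b.1.2 : ℤ), 1, 1), by
            have := b.2
            simp only [hP] at this
            simp only [mul_one]
            rw [hm]; linarith [this.2.2.2.2.2.2.2.2]⟩)
        rintro ⟨⟨b1, b2⟩, hb⟩ ⟨⟨b1', b2'⟩, hb'⟩ h
        simp only [Subtype.mk.injEq, Prod.mk.injEq, Nat.cast_inj, and_true] at h
        obtain ⟨h7, h8⟩ := h
        subst h7
        subst h8
        rfl
      have h7 : |(m : ℝ)| ≤ (N : ℝ) ^ (2 : ℝ) := by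
        rw [abs_of_pos (by exact_mod_cast hmpos)]
        have : (m : ℝ) ≤ (N : ℝ) * N := by exact_mod_cast hmle
        rw [Real.rpow_two]
        linarith [this, sq (N : ℝ)]
      calc (Nat.card {b : ℕ × ℕ // P (a, b)} : ℝ) ≤
            (Nat.card {x : ℤ × ℤ × ℤ × ℤ // x.1 * x.2.1 * x.2.2.1 * x.2.2.2 = m} : ℝ) := by
              exact_mod_cast h6
        _ ≤ C * |(m : ℝ)| ^ (ε / 2) := h5
        _ ≤ C * ((N : ℝ) ^ (2 : ℝ)) ^ (ε / 2) := by gcongr
        _ = C * (N : ℝ) ^ ε := by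
            rw [← Real.rpow_mul (by positivity)]
            congr 2
            ring
    · have : IsEmpty {b : ℕ × ℕ // P (a, b)} := ⟨fun b => hne ⟨b.1, b.2⟩⟩
      rw [Nat.card_of_isEmpty]
      simpa using hpos
  have hA : ∀ x, P x → x.1 ∈ (Finset.Icc 1 N) ×ˢ (Finset.Icc 1 N) := by
    intro x hx
    simp only [hP] at hx
    simp only [Finset.mem_product, Finset.mem_Icc]
    tauto
  have hfl : ∀ a ∈ (Finset.Icc 1 N) ×ˢ (Finset.Icc 1 N),
      Nat.card {b : ℕ × ℕ // P (a, b)} ≤ ⌊C * (N : ℝ) ^ ε⌋₊ := fun a _ => Nat.le_floor (hone a)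
  have hmain := card_fst_le P _ hA _ hfin hfl
  calc (Nat.card {x // P x} : ℝ) ≤
        ((((Finset.Icc 1 N) ×ˢ (Finset.Icc 1 N)).card * ⌊C * (N : ℝ) ^ ε⌋₊ : ℕ) : ℝ) := by
          exact_mod_cast hmain
    _ = (N : ℝ) * N * ((⌊C * (N : ℝ) ^ ε⌋₊ : ℕ) : ℝ) := by
        rw [Finset.card_product, Nat.card_Icc]; push_cast; simp
    _ ≤ (N : ℝ) * N * (C * (N : ℝ) ^ ε) := by
        gcongr
        exact Nat.floor_le (by positivity)
    _ = C * (N : ℝ) ^ (2 + ε) := by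
        rw [Real.rpow_add (by linarith), Real.rpow_two]
        ring

end Pool.Agent.VM5.H52
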